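import Pool.Agent.Q138.MRD.Data

set_option autoImplicit false
set_option maxRecDepth 100000

/-!
The dual of the spread set is an additive MRD code of distance 2 without additive MRD subcode of
distance 3.
-/

namespace Pool.Agent.Q138.MRD

open Matrix Finset

abbrev K := ZMod 2
abbrev V := Matrix (Fin 4) (Fin 4) K

/-- the entries of the matrix with code `m` -/
def toF (m : ℕ) (i j : Fin 4) : ZMod 2 := if m.testBit (4 * i + j) then 1 else 0

/-- the matrix with code `m` -/
def toM (m : ℕ) : V := Matrix.of (toF m)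

theorem toM_apply (m : ℕ) (i j : Fin 4) : toM m i j = toF m i j := rfl

/-- the vector with code `u` -/
def vec (u : ℕ) (i : Fin 4) : ZMod 2 := if u.testBit i then 1 else 0

theorem toM_xor (a b : ℕ) : toM (a ^^^ b) = toM a + toM b := by
  ext i j
  simp only [toM_apply, toF, Matrix.add_apply, Nat.testBit_xor]
  cases a.testBit (4 * (i : ℕ) + j) <;> cases b.testBit (4 * (i : ℕ) + j) <;> decide

theorem toM_surj (M : V) : ∃ m < 65536, toM m = M := by
  refine ⟨Nat.ofBits (n := 16) fun k => decide (M ⟨(k : ℕ) / 4, by omega⟩ ⟨(k : ℕ) % 4, by omega⟩ = 1),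
    Nat.ofBits_lt_two_pow _, ?_⟩
  ext i j
  simp only [toM_apply, toF]
  rw [Nat.testBit_ofBits_lt _ _ (by omega)]
  have h1 : (4 * (i : ℕ) + j) / 4 = i := by omega
  have h2 : (4 * (i : ℕ) + j) % 4 = j := by omega
  have e1 : (⟨(4 * (i : ℕ) + j) / 4, by omega⟩ : Fin 4) = i := Fin.ext h1
  have e2 : (⟨(4 * (i : ℕ) + j) % 4, by omega⟩ : Fin 4) = j := Fin.ext h2
  simp only [e1, e2]
  have h3 : M i j = 0 ∨ M i j = 1 := by
    generalize M i j = x
    revert x
    decide
  rcases h3 with h3 | h3 <;> rw [h3] <;> decide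

theorem toM_out' : ∀ u v : Fin 16, ∀ i j : Fin 4,
    toF (sp u * (v : ℕ)) i j = vec u i * vec v j := by
  decide +kernel

theorem toM_out (u : ℕ) (hu : u < 16) (v : ℕ) (hv : v < 16) (i j : Fin 4) :
    toM (sp u * v) i j = vec u i * vec v j := toM_out' ⟨u, hu⟩ ⟨v, hv⟩ i j

theorem vec_ne : ∀ v < 16, v ≠ 0 → ∃ j, vec v j = 1 := by
  decide +kernel

theorem vec_ind' : ∀ u v : Fin 16, (u : ℕ) ≠ 0 → (v : ℕ) ≠ 0 → (u : ℕ) ≠ v → ∀ s t : ZMod 2,
    (∀ i : Fin 4, s * vec u i + t * vec v i = 0) → s = 0 ∧ t = 0 := by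
  decide +kernel

theorem vec_ind (u : ℕ) (hu : u < 16) (v : ℕ) (hv : v < 16) (h1 : u ≠ 0) (h2 : v ≠ 0)
    (h3 : u ≠ v) (s t : K) (h : ∀ i, s * vec u i + t * vec v i = 0) : s = 0 ∧ t = 0 :=
  vec_ind' ⟨u, hu⟩ ⟨v, hv⟩ h1 h2 h3 s t h

theorem Sg_lin' : ∀ i : Fin 16, ∀ a b : Fin 4, toF (Sg i) a b =
    ∑ j : Fin 4, vec i j * toF (Sg (2 ^ (j : ℕ))) a b := by
  decide +kernel

theorem Sg_lin (i : ℕ) (hi : i < 16) (a b : Fin 4) : toM (Sg i) a b =
    ∑ j : Fin 4, vec i j * toM (Sg (2 ^ (j : ℕ))) a b := Sg_lin' ⟨i, hi⟩ a b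

theorem Sg_row' : ∀ j b : Fin 4, toF (Sg (2 ^ (j : ℕ))) 0 b = if b = j then 1 else 0 := by
  decide +kernel

theorem Sg_row (j b : Fin 4) : toM (Sg (2 ^ (j : ℕ))) 0 b = if b = j then 1 else 0 := Sg_row' j b

theorem Sg_mod : ∀ i < 16, Sg i % 16 = i ∧ Sg i < 65536 := by
  decide +kernel

/-- the bilinear form -/
def ip (A B : V) : K := ∑ i, ∑ j, A i j * B i j

theorem ip_add (A B C : V) : ip (A + B) C = ip A C + ip B C := by
  simp only [ip, Matrix.add_apply, add_mul, Finset.sum_add_distrib]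

theorem ip_add_right (A B C : V) : ip A (B + C) = ip A B + ip A C := by
  simp only [ip, Matrix.add_apply, mul_add, Finset.sum_add_distrib]

theorem ip_comm (A B : V) : ip A B = ip B A := by
  simp only [ip]
  exact Finset.sum_congr rfl fun i _ => Finset.sum_congr rfl fun j _ => mul_comm _ _

theorem ip_smul_right (A B : V) (c : K) : ip A (c • B) = c * ip A B := by
  simp only [ip, Matrix.smul_apply, smul_eq_mul, Finset.mul_sum]
  exact Finset.sum_congr rfl fun i _ => Finset.sum_congr rfl fun j _ => by ring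

theorem ip_sum_right (A : V) {ι : Type} (s : Finset ι) (c : ι → K) (B : ι → V) :
    ip A (∑ i ∈ s, c i • B i) = ∑ i ∈ s, c i * ip A (B i) := by
  classical
  induction s using Finset.induction_on with
  | empty => simp [ip]
  | insert a s ha ih => rw [Finset.sum_insert ha, Finset.sum_insert ha, ip_add_right, ih,
      ip_smul_right]

/-- the four functionals -/
def fC {ι : Type} (b : ι → V) : V →ₗ[K] (ι → K) where
  toFun A i := ip A (b i)
  map_add' A B := by
    funext i
    exact ip_add A B (b i)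
  map_smul' c A := by
    funext i
    simp only [RingHom.id_apply, Pi.smul_apply, smul_eq_mul]
    rw [ip_comm, ip_smul_right, ip_comm]

/-- the code -/
def CC : Submodule K V := LinearMap.ker (fC fun j : Fin 4 => toM (Sg (2 ^ (j : ℕ))))

theorem mem_CC {A : V} : A ∈ CC ↔ ∀ j : Fin 4, ip A (toM (Sg (2 ^ (j : ℕ)))) = 0 := by
  unfold CC
  rw [LinearMap.mem_ker]
  constructor
  · intro h j
    exact congrFun h j
  · intro h
    funext j
    exact h j

theorem toM_Sg {i : ℕ} (hi : i < 16) :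
    toM (Sg i) = ∑ j : Fin 4, vec i j • toM (Sg (2 ^ (j : ℕ))) := by
  ext a b
  rw [Sg_lin i hi a b, Matrix.sum_apply]
  simp only [Matrix.smul_apply, smul_eq_mul]

theorem ip_Sg {A : V} (hA : A ∈ CC) {i : ℕ} (hi : i < 16) : ip A (toM (Sg i)) = 0 := by
  rw [toM_Sg hi, ip_sum_right]
  apply Finset.sum_eq_zero
  intro j _
  rw [mem_CC.1 hA j, mul_zero]

theorem finrank_V : Module.finrank K V = 16 := by
  rw [Module.finrank_matrix]
  simp

theorem surj_C : Function.Surjective (fC fun j : Fin 4 => toM (Sg (2 ^ (j : ℕ)))) := by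
  intro x
  refine ⟨fun a b => if a = 0 then x b else 0, ?_⟩
  funext j
  show ip (fun a b => if a = 0 then x b else 0) (toM (Sg (2 ^ (j : ℕ)))) = x j
  unfold ip
  rw [Finset.sum_eq_single 0]
  · simp only [if_true]
    rw [Finset.sum_eq_single j]
    · rw [Sg_row, if_pos rfl, mul_one]
    · intro b _ hb
      rw [Sg_row, if_neg hb, mul_zero]
    · intro h
      exact absurd (Finset.mem_univ _) h
  · intro a _ ha
    simp only [if_neg ha, zero_mul, Finset.sum_const_zero]
  · intro h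
    exact absurd (Finset.mem_univ _) h

theorem card_K : Nat.card K = 2 := by simp

theorem card_sub (S : Submodule K V) : Nat.card S = 2 ^ Module.finrank K S := by
  rw [Module.natCard_eq_pow_finrank (K := K), card_K]

theorem card_CC : Nat.card CC = 2 ^ 12 := by
  rw [card_sub]
  have h := LinearMap.finrank_range_add_finrank_ker
    (fC fun j : Fin 4 => toM (Sg (2 ^ (j : ℕ))))
  rw [LinearMap.range_eq_top.2 surj_C, finrank_top, finrank_V, Module.finrank_fin_fun] at h
  have h2 : Module.finrank K CC = 12 := by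
    unfold CC
    omega
  rw [h2]

/-- rank at most one -/
theorem rank_one {A : V} (h : A.rank ≤ 1) : ∃ v c : Fin 4 → K, ∀ i j, A i j = v i * c j := by
  have h1 : Module.finrank K (LinearMap.range A.mulVecLin) ≤ 1 := h
  obtain ⟨v, hv⟩ := finrank_le_one_iff.1 h1
  have h2 : ∀ j : Fin 4, ∃ c : K, ∀ i, A i j = c * (v : Fin 4 → K) i := by
    intro j
    obtain ⟨c, hc⟩ := hv ⟨A.mulVecLin (Pi.single j 1), LinearMap.mem_range_self _ _⟩
    refine ⟨c, fun i => ?_⟩
    have h3 := congrFun (congrArg Subtype.val hc) i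
    simp only [Submodule.coe_smul, Pi.smul_apply, smul_eq_mul, Matrix.mulVecLin_apply,
      Matrix.mulVec_single_one, Matrix.col_apply] at h3
    exact h3.symm
  choose c hc using h2
  exact ⟨v, c, fun i j => by rw [hc, mul_comm]⟩

theorem nondeg' : ∀ v c : Fin 4 → ZMod 2, (∃ i, v i ≠ 0) → (∃ j, c j ≠ 0) → ∃ j : Fin 4,
    ∑ a, ∑ b, v a * c b * toF (Sg (2 ^ (j : ℕ))) a b ≠ 0 := by
  decide +kernel

theorem nondeg (v c : Fin 4 → K) (h1 : ∃ i, v i ≠ 0) (h2 : ∃ j, c j ≠ 0) : ∃ j : Fin 4,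
    ∑ a, ∑ b, v a * c b * toM (Sg (2 ^ (j : ℕ))) a b ≠ 0 := nondeg' v c h1 h2

theorem CC_rank {A : V} (hA : A ∈ CC) (h0 : A ≠ 0) : 2 ≤ A.rank := by
  by_contra hcon
  obtain ⟨v, c, h⟩ := rank_one (by omega : A.rank ≤ 1)
  have hv : ∃ i, v i ≠ 0 := by
    by_contra h1
    push Not at h1
    exact h0 (by ext i j; rw [h, h1, zero_mul]; rfl)
  have hc : ∃ j, c j ≠ 0 := by
    by_contra h1
    push Not at h1
    exact h0 (by ext i j; rw [h, h1, mul_zero]; rfl)
  obtain ⟨j, hj⟩ := nondeg v c hv hc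
  apply hj
  have h2 := mem_CC.1 hA j
  unfold ip at h2
  rw [← h2]
  exact Finset.sum_congr rfl fun a _ => Finset.sum_congr rfl fun b _ => by rw [h]

/-- a matrix killed by two independent vectors on the left -/
theorem rank_le_two {A : V} {u v : ℕ} (hu : u < 16) (hv : v < 16) (hu0 : u ≠ 0) (hv0 : v ≠ 0)
    (huv : u ≠ v) (h1 : vecMul (vec u) A = 0) (h2 : vecMul (vec v) A = 0) : A.rank ≤ 2 := by
  have hl : LinearIndependent K ![vec u, vec v] := by
    rw [LinearIndependent.pair_iff]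
    intro s t hst
    apply vec_ind u hu v hv hu0 hv0 huv
    intro i
    exact congrFun hst i
  have hker : ∀ x : Fin 2, (![vec u, vec v] x) ∈ LinearMap.ker (Aᵀ).mulVecLin := by
    intro x
    rw [LinearMap.mem_ker, Matrix.mulVecLin_apply, Matrix.mulVec_transpose]
    fin_cases x
    · exact h1
    · exact h2
  have hl2 : LinearIndependent K (fun x : Fin 2 =>
      (⟨![vec u, vec v] x, hker x⟩ : LinearMap.ker (Aᵀ).mulVecLin)) := by
    apply LinearIndependent.of_comp (LinearMap.ker (Aᵀ).mulVecLin).subtype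
    exact hl
  have h3 := hl2.fintype_card_le_finrank
  rw [Fintype.card_fin] at h3
  have h4 := LinearMap.finrank_range_add_finrank_ker (Aᵀ).mulVecLin
  rw [Module.finrank_fin_fun] at h4
  have h5 : A.rank = Module.finrank K (LinearMap.range (Aᵀ).mulVecLin) := by
    rw [← Matrix.rank_transpose]
    rfl
  omega

/-- the dual of a code of distance 3 and size `2 ^ 8` has no matrix of rank at most two -/
theorem dual_rank (D : AddSubgroup V) (hcard : Nat.card D = 2 ^ 8)
    (hD : ∀ A ∈ D, A ≠ 0 → 3 ≤ A.rank) {u1 u2 v1 v2 : ℕ} (hu1 : u1 < 16) (hu2 : u2 < 16)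
    (hv1 : v1 < 16) (hv2 : v2 < 16) (h1 : u1 ≠ 0) (h2 : u2 ≠ 0) (h12 : u1 ≠ u2)
    (hv : v1 ≠ 0 ∨ v2 ≠ 0) :
    ∃ A ∈ D, ip (toM ((sp u1 * v1) ^^^ (sp u2 * v2))) A ≠ 0 := by
  set g : D → (Fin 4 → K) × (Fin 4 → K) := fun A =>
    (vecMul (vec u1) (A : V), vecMul (vec u2) (A : V)) with hg
  have hinj : Function.Injective g := by
    intro A B hAB
    have e1 : vecMul (vec u1) ((A : V) - (B : V)) = 0 := by
      rw [Matrix.vecMul_sub, sub_eq_zero]
      exact congrArg Prod.fst hAB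
    have e2 : vecMul (vec u2) ((A : V) - (B : V)) = 0 := by
      rw [Matrix.vecMul_sub, sub_eq_zero]
      exact congrArg Prod.snd hAB
    have h3 := rank_le_two hu1 hu2 h1 h2 h12 e1 e2
    by_contra hne
    have h4 := hD ((A : V) - (B : V)) (D.sub_mem A.2 B.2) (by
      rw [sub_ne_zero]
      exact fun h => hne (Subtype.ext h))
    omega
  have hbij : Function.Bijective g := by
    rw [Nat.bijective_iff_injective_and_card]
    refine ⟨hinj, ?_⟩
    rw [hcard, Nat.card_prod, Nat.card_fun, card_K, Nat.card_eq_fintype_card, Fintype.card_fin]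
    norm_num
  have key : ∀ A : V, ip (toM ((sp u1 * v1) ^^^ (sp u2 * v2))) A =
      ∑ j, vec v1 j * vecMul (vec u1) A j + ∑ j, vec v2 j * vecMul (vec u2) A j := by
    intro A
    rw [toM_xor, ip_add]
    congr 1
    · unfold ip
      rw [Finset.sum_comm]
      apply Finset.sum_congr rfl
      intro j _
      rw [Matrix.vecMul, dotProduct, Finset.mul_sum]
      apply Finset.sum_congr rfl
      intro i _
      rw [toM_out u1 hu1 v1 hv1]
      ring
    · unfold ip
      rw [Finset.sum_comm]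
      apply Finset.sum_congr rfl
      intro j _
      rw [Matrix.vecMul, dotProduct, Finset.mul_sum]
      apply Finset.sum_congr rfl
      intro i _
      rw [toM_out u2 hu2 v2 hv2]
      ring
  rcases hv with hv | hv
  · obtain ⟨j, hj⟩ := vec_ne v1 hv1 hv
    obtain ⟨A, hA⟩ := hbij.2 (Pi.single j 1, 0)
    refine ⟨A, A.2, ?_⟩
    rw [key]
    have e1 : vecMul (vec u1) (A : V) = Pi.single j 1 := congrArg Prod.fst hA
    have e2 : vecMul (vec u2) (A : V) = 0 := congrArg Prod.snd hA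
    rw [e1, e2]
    simp [hj, Pi.single_apply]
  · obtain ⟨j, hj⟩ := vec_ne v2 hv2 hv
    obtain ⟨A, hA⟩ := hbij.2 (0, Pi.single j 1)
    refine ⟨A, A.2, ?_⟩
    rw [key]
    have e1 : vecMul (vec u1) (A : V) = 0 := congrArg Prod.fst hA
    have e2 : vecMul (vec u2) (A : V) = Pi.single j 1 := congrArg Prod.snd hA
    rw [e1, e2]
    simp [hj, Pi.single_apply]

/-- no additive subcode of size `2 ^ 8` and distance 3 -/
theorem no_sub (D : AddSubgroup V) (hDC : ∀ A ∈ D, A ∈ CC) (hcard : Nat.card D = 2 ^ 8)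
    (hD : ∀ A ∈ D, A ≠ 0 → 3 ≤ A.rank) : False := by
  set D' : Submodule K V := AddSubgroup.toZModSubmodule 2 D with hD'
  have hmem : ∀ A, A ∈ D' ↔ A ∈ D := fun A => Iff.rfl
  have hfin : Module.finrank K D' = 8 := by
    have h1 := card_sub D'
    have h2 : Nat.card D' = 2 ^ 8 := hcard
    rw [h2] at h1
    exact (Nat.pow_right_injective le_rfl h1).symm
  set b := Module.finBasisOfFinrankEq K D' hfin with hb
  set f := fC (fun i : Fin 8 => ((b i : D') : V)) with hf
  -- the orthogonal space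
  have hker : ∀ M : V, M ∈ LinearMap.ker f → ∀ A ∈ D, ip M A = 0 := by
    intro M hM A hA
    have hA' : A ∈ D' := hA
    have h1 : (A : V) = ∑ i, (b.repr ⟨A, hA'⟩ i) • ((b i : D') : V) := by
      have h2 := b.sum_repr ⟨A, hA'⟩
      have h3 := congrArg Subtype.val h2
      rw [AddSubmonoidClass.coe_finsetSum] at h3
      exact h3.symm
    rw [h1, ip_sum_right]
    apply Finset.sum_eq_zero
    intro i _
    have h4 : ip M ((b i : D') : V) = 0 := congrFun (LinearMap.mem_ker.1 hM) i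
    rw [h4, mul_zero]
  have hcK : 256 ≤ Nat.card (LinearMap.ker f) := by
    rw [card_sub]
    have h1 := LinearMap.finrank_range_add_finrank_ker f
    rw [finrank_V] at h1
    have h2 : Module.finrank K (LinearMap.range f) ≤ 8 := by
      refine (Submodule.finrank_le _).trans ?_
      rw [Module.finrank_fin_fun]
    have h3 : 8 ≤ Module.finrank K (LinearMap.ker f) := by omega
    calc 256 = 2 ^ 8 := by norm_num
      _ ≤ _ := Nat.pow_le_pow_right (by norm_num) h3
  -- a matrix outside the spread set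
  obtain ⟨M, hM, hMS⟩ : ∃ M ∈ LinearMap.ker f, ∀ i < 16, M ≠ toM (Sg i) := by
    by_contra hcon
    push Not at hcon
    have h1 : ∀ M : LinearMap.ker f, ∃ i : Fin 16, (M : V) = toM (Sg i) := by
      intro M
      obtain ⟨i, hi, h⟩ := hcon M M.2
      exact ⟨⟨i, hi⟩, h⟩
    choose φ hφ using h1
    have hinj : Function.Injective φ := by
      intro A B h
      apply Subtype.ext
      rw [hφ A, hφ B, h]
    have h2 := Nat.card_le_card_of_injective φ hinj
    rw [Nat.card_fin] at h2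
    omega
  obtain ⟨m, hm, rfl⟩ := toM_surj M
  -- the coset
  have hS16 : m % 16 < 16 := Nat.mod_lt _ (by norm_num)
  set k : ℕ := (m ^^^ Sg (m % 16)) / 16 with hk
  have hSm := Sg_mod (m % 16) hS16
  have hx : m ^^^ Sg (m % 16) < 65536 := Nat.xor_lt_two_pow (n := 16) hm hSm.2
  have hx0 : (m ^^^ Sg (m % 16)) % 16 = 0 := by
    have h1 : (m ^^^ Sg (m % 16)) % 2 ^ 4 = (m % 2 ^ 4) ^^^ (Sg (m % 16) % 2 ^ 4) :=
      Nat.xor_mod_two_pow
    rw [show (2 : ℕ) ^ 4 = 16 by norm_num, hSm.1, Nat.xor_self] at h1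
    exact h1
  have hk16 : 16 * k = m ^^^ Sg (m % 16) := by omega
  have hk0 : k ≠ 0 := by
    intro h0
    rw [h0, mul_zero] at hk16
    have h1 : m = Sg (m % 16) := (Nat.xor_eq_zero_iff.1 hk16.symm)
    exact hMS (m % 16) hS16 (by rw [← h1])
  have hk4 : k < 4096 := by omega
  have hchk := chk_all (k / 64) (by omega) (k % 64) (by omega) (by omega)
  rw [show 64 * (k / 64) + k % 64 = k by omega] at hchk
  unfold chk at hchk
  simp only [Bool.and_eq_true, Bool.or_eq_true, bne_iff_ne, beq_iff_eq, ne_eq] at hchk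
  obtain ⟨⟨⟨⟨c1, c2⟩, c3⟩, c4⟩, c5⟩ := hchk
  set w := (W >>> (20 * k)) % 1048576 with hw
  have l0 : w % 16 < 16 := Nat.mod_lt _ (by norm_num)
  obtain ⟨A, hA, hne⟩ := dual_rank D hcard hD (Nat.mod_lt _ (by norm_num))
    (Nat.mod_lt _ (by norm_num)) (Nat.mod_lt _ (by norm_num)) (Nat.mod_lt _ (by norm_num))
    c1 c2 c3 c4
  apply hne
  rw [← c5, hk16, toM_xor, toM_xor, ip_add, ip_add, hker _ hM A hA]
  have h6 : ∀ i < 16, ip (toM (Sg i)) A = 0 := by
    intro i hi
    rw [ip_comm]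
    exact ip_Sg (hDC A hA) hi
  rw [h6 _ hS16, h6 _ l0]
  norm_num

theorem mem18' : ∀ j : Fin 4, ∑ a : Fin 4, ∑ b : Fin 4, toF 18 a b * toF (Sg (2 ^ (j : ℕ))) a b = 0 := by
  decide +kernel

theorem mem18 : ∀ j : Fin 4, ip (toM 18) (toM (Sg (2 ^ (j : ℕ)))) = 0 := mem18'

theorem ne18 : toM 18 ≠ 0 := by
  intro h
  have h1 : toF 18 0 1 = 0 := congrFun (congrFun h 0) 1
  revert h1
  decide

theorem row18 : ∀ j : Fin 4, (∑ i : Fin 4, vec 4 i * toF 18 i j = 0) ∧
    (∑ i : Fin 4, vec 8 i * toF 18 i j = 0) := by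
  decide +kernel

theorem rank18 : (toM 18).rank = 2 := by
  apply le_antisymm
  · apply rank_le_two (u := 4) (v := 8) (by norm_num) (by norm_num) (by norm_num) (by norm_num)
      (by norm_num)
    · funext j
      exact (row18 j).1
    · funext j
      exact (row18 j).2
  · exact CC_rank (mem_CC.2 mem18) ne18

end Pool.Agent.Q138.MRD
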